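import Pool.Agent.E8helper81.GZ.Stm
import Pool.Agent.E8helper63.SZ.Pos

/-!
# Project GZ, piece GZ-F: products `p n`
-/

set_option autoImplicit false

namespace Pool.Agent.E8helper47.GZ

open Finset Pool.Agent.E8helper22.SZ Pool.Agent.E8helper81.GZ

/-- a number below `y₀ ^ (k + 1)` has at most `k` prime factors `≥ y₀` -/
theorem card_primes (P : Finset ℕ) (y₀ k m : ℕ) (hP : ∀ p ∈ P, p.Prime ∧ y₀ < p) (hy : 1 ≤ y₀)
    (hm : 0 < m) (hmk : m < y₀ ^ (k + 1)) : (P.filter (fun p => p ∣ m)).card ≤ k := by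
  by_contra hc
  push Not at hc
  have h1 : ∏ p ∈ P.filter (fun p => p ∣ m), p ∣ m := by
    apply Finset.prod_primes_dvd
    · intro a ha
      rw [Finset.mem_filter] at ha
      exact (hP a ha.1).1.prime
    · intro a ha
      rw [Finset.mem_filter] at ha
      exact ha.2
  have h2 : y₀ ^ (P.filter (fun p => p ∣ m)).card ≤ ∏ p ∈ P.filter (fun p => p ∣ m), p := by
    rw [← Finset.prod_const]
    apply Finset.prod_le_prod
    · intro i _
      exact Nat.zero_le _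
    · intro i hi
      rw [Finset.mem_filter] at hi
      exact (hP i hi.1).2.le
  have h3 : y₀ ^ (k + 1) ≤ y₀ ^ (P.filter (fun p => p ∣ m)).card :=
    Nat.pow_le_pow_right hy hc
  have h4 := Nat.le_of_dvd hm h1
  omega

theorem t_F (h : S_M) : S_F := by
  intro q χ hq hχ P y₀ x y k hP hy hxy
  have hpos : ∀ m : ℕ, 0 ≤ tau χ m / m := by
    intro m
    rcases Nat.eq_zero_or_pos m with rfl | hm
    · simp
    · exact div_nonneg (Pool.Agent.E8helper63.SZ.t_POS q χ hq hχ m hm).1 (Nat.cast_nonneg m)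
  have h1 : (∑ p ∈ P, 1 / (p : ℝ)) * ∑ n ∈ Icc 1 y, tau χ n / n ≤
      ∑ z ∈ P ×ˢ Icc 1 y, tau χ (z.1 * z.2) / ((z.1 * z.2 : ℕ) : ℝ) := by
    rw [Finset.sum_mul_sum, ← Finset.sum_product']
    apply Finset.sum_le_sum
    intro z hz
    rw [Finset.mem_product, Finset.mem_Icc] at hz
    obtain ⟨hz1, hz2, hz3⟩ := hz
    obtain ⟨hp, hp1, hp2, hp3⟩ := hP z.1 hz1
    have h2 := h q χ hq hχ z.1 z.2 hp hp3 hz2
    rw [one_div, Nat.cast_mul, ← div_eq_inv_mul, div_div, mul_comm (z.2 : ℝ)]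
    gcongr
  refine h1.trans ?_
  have hmaps : ∀ z ∈ P ×ˢ Icc 1 y, z.1 * z.2 ∈ Ioc y₀ (x * y) := by
    intro z hz
    rw [Finset.mem_product, Finset.mem_Icc] at hz
    obtain ⟨hz1, hz2, hz3⟩ := hz
    obtain ⟨hp, hp1, hp2, hp3⟩ := hP z.1 hz1
    rw [Finset.mem_Ioc]
    refine ⟨?_, Nat.mul_le_mul hp2 hz3⟩
    calc y₀ < z.1 := hp1
      _ = z.1 * 1 := (mul_one _).symm
      _ ≤ z.1 * z.2 := Nat.mul_le_mul le_rfl hz2
  rw [← Finset.sum_fiberwise_of_maps_to hmaps, Finset.mul_sum]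
  apply Finset.sum_le_sum
  intro m hm
  rw [Finset.mem_Ioc] at hm
  have hm0 : 0 < m := by omega
  have h3 : ∑ z ∈ (P ×ˢ Icc 1 y).filter (fun z => z.1 * z.2 = m),
      tau χ (z.1 * z.2) / ((z.1 * z.2 : ℕ) : ℝ) =
      (((P ×ˢ Icc 1 y).filter (fun z => z.1 * z.2 = m)).card : ℝ) * (tau χ m / m) := by
    rw [Finset.sum_congr rfl (g := fun _ => tau χ m / (m : ℝ)), Finset.sum_const, nsmul_eq_mul]
    intro z hz
    rw [Finset.mem_filter] at hz
    rw [hz.2]
  rw [h3]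
  apply mul_le_mul_of_nonneg_right _ (hpos m)
  have h4 : ((P ×ˢ Icc 1 y).filter (fun z => z.1 * z.2 = m)).card ≤
      (P.filter (fun p => p ∣ m)).card := by
    apply Finset.card_le_card_of_injOn Prod.fst
    · intro z hz
      rw [Finset.mem_coe, Finset.mem_filter, Finset.mem_product] at hz
      rw [Finset.mem_coe, Finset.mem_filter]
      exact ⟨hz.1.1, ⟨z.2, hz.2.symm⟩⟩
    · intro z hz w hw hzw
      rw [Finset.mem_coe, Finset.mem_filter, Finset.mem_product] at hz hw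
      have hp := (hP z.1 hz.1.1).1.pos
      have h5 : z.1 * z.2 = z.1 * w.2 := by rw [hz.2, hzw, hw.2]
      exact Prod.ext hzw (Nat.eq_of_mul_eq_mul_left hp h5)
  have h5 := card_primes P y₀ k m (fun p hp => ⟨(hP p hp).1, (hP p hp).2.1⟩) hy hm0
    (lt_of_le_of_lt hm.2 hxy)
  exact_mod_cast h4.trans h5

end Pool.Agent.E8helper47.GZ
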